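import Pool.Agent.Helper4.TK.StD

/-!
# Project TK, module Uni: a symbol with zero plane functions is constant

Adapted from `Pool/Agent/Helper39/TH/M_Uni.lean`.
-/

set_option autoImplicit false

namespace Pool.Agent.Helper77.TK

open Pool.Agent.Helper4.TK
open Pool.Agent.Helper14.CV (Homog EqC act Tl StFar StFex)

private lemma un1 (n : ℕ) {a b c d : ℤ} (h : KTy a b (5 * c) d) :
    IsUnit (a : ZMod (5 ^ n)) ∧ IsUnit (d : ZMod (5 ^ n)) := by
  have key : ∀ k : ℤ, IsCoprime k 5 → IsUnit (k : ZMod (5 ^ n)) := by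
    intro k hk
    rw [ZMod.coe_int_isUnit_iff_isCoprime]
    push_cast
    exact IsCoprime.pow_left hk.symm
  rcases h with ⟨h, _⟩ | ⟨h, _⟩
  · exact ⟨key a ⟨d, -(b * c), by linear_combination h⟩, key d ⟨a, -(b * c), by linear_combination h⟩⟩
  · exact ⟨key a ⟨2 * d, -(1 + 2 * b * c), by linear_combination 2 * h⟩,
      key d ⟨2 * a, -(1 + 2 * b * c), by linear_combination 2 * h⟩⟩

private lemma dvd5' {n : ℤ} : (5 : ℤ) ∣ n ↔ (n : ZMod 5) = 0 :=
  (ZMod.intCast_zmod_eq_zero_iff_dvd n 5).symm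

private lemma cls6 : ∀ r s : ZMod 5,
    r = 0 ∨ s = 0 ∨ r - s = 0 ∨ r + s = 0 ∨ r - 2 * s = 0 ∨ r - 3 * s = 0 := by decide

/-- UNI. -/
theorem hUni (he : TEdg) (hp : TPlK) (hf : StFar) : TUni := by
  have _ := hp
  intro R _ r s G hG hz
  have key : ∀ a b c d : ℤ, KTy a b (5 * c) d →
      G a (5 * c) = G b d ∧ G (a + 3 * b) (5 * c + 3 * d) = G b d ∧
        G (a + 2 * b) (5 * c + 2 * d) = G b d := by
    intro a b c d h
    have ha : IsUnit (a : ZMod (5 ^ r)) := (un1 r h).1
    have hd : IsUnit (d : ZMod (5 ^ s)) := (un1 s h).2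
    set X : ZMod (5 ^ r) := (b : ZMod (5 ^ r)) * (a : ZMod (5 ^ r))⁻¹ with hX
    set Y : ZMod (5 ^ s) := (c : ZMod (5 ^ s)) * (d : ZMod (5 ^ s))⁻¹ with hY
    have hp : PlK a b c d X Y := by
      refine ⟨h, ?_, ?_⟩
      · rw [hX, mul_assoc, ZMod.inv_mul_of_unit _ ha, mul_one]
      · rw [hY, mul_assoc, ZMod.inv_mul_of_unit _ hd, mul_one]
    have z0 : edgeK 1 0 0 1 G X Y = 0 := congrFun (congrFun (hz 0) X) Y
    have z1 : edgeK 1 3 0 1 G X Y = 0 := congrFun (congrFun (hz 1) X) Y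
    have z2 : edgeK 1 2 0 1 G X Y = 0 := congrFun (congrFun (hz 2) X) Y
    have k0 := he R _ r s G hG 1 0 0 1 (Or.inl one_ne_zero) (Or.inr one_ne_zero) _ _ a b c d hp
    have k1 := he R _ r s G hG 1 3 0 1 (Or.inl one_ne_zero) (Or.inr one_ne_zero) _ _ a b c d hp
    have k2 := he R _ r s G hG 1 2 0 1 (Or.inl one_ne_zero) (Or.inr one_ne_zero) _ _ a b c d hp
    rw [z0] at k0
    rw [z1] at k1
    rw [z2] at k2
    have e0 : a * 1 + b * 0 = a := by ring
    have e1 : 5 * c * 1 + d * 0 = 5 * c := by ring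
    have e2 : a * 0 + b * 1 = b := by ring
    have e3 : 5 * c * 0 + d * 1 = d := by ring
    have e4 : a * 1 + b * 3 = a + 3 * b := by ring
    have e5 : 5 * c * 1 + d * 3 = 5 * c + 3 * d := by ring
    have e6 : a * 1 + b * 2 = a + 2 * b := by ring
    have e7 : 5 * c * 1 + d * 2 = 5 * c + 2 * d := by ring
    rw [e0, e1, e2, e3] at k0
    rw [e2, e3, e4, e5] at k1
    rw [e2, e3, e6, e7] at k2
    exact ⟨sub_eq_zero.1 k0.symm, sub_eq_zero.1 k1.symm, sub_eq_zero.1 k2.symm⟩
  -- homogeneity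
  have hsc : ∀ k p t : ℤ, k ≠ 0 → (p ≠ 0 ∨ t ≠ 0) → G (k * p) (k * t) = G p t :=
    fun k p t hk n => hG.1 k p t hk n
  -- edges `(p q; t u)` with `3 ∣ t`
  have hev : ∀ p q t u : ℤ, p * u - q * t = 1 → (3 : ℤ) ∣ t → G p t = G q u := by
    intro p q t u h h2
    have n1 : p ≠ 0 ∨ t ≠ 0 := by
      by_contra hcon
      push Not at hcon
      rw [hcon.1, hcon.2] at h
      simp at h
    have n2 : q ≠ 0 ∨ u ≠ 0 := by
      by_contra hcon
      push Not at hcon
      rw [hcon.1, hcon.2] at h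
      simp at h
    have hneg : G (-p) (-t) = G p t := by
      have := hsc (-1) p t (by norm_num) n1
      rwa [neg_one_mul, neg_one_mul] at this
    have hneg' : G (-q) (-u) = G q u := by
      have := hsc (-1) q u (by norm_num) n2
      rwa [neg_one_mul, neg_one_mul] at this
    have htri : G (3 * q) (3 * u) = G q u := hsc 3 q u (by norm_num) n2
    rcases cls6 (t : ZMod 5) (u : ZMod 5) with e | e | e | e | e | e
    · obtain ⟨c, rfl⟩ := dvd5'.2 e
      exact (key p q c u (Or.inl ⟨by linear_combination h, h2⟩)).1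
    · obtain ⟨c, rfl⟩ := dvd5'.2 e
      have hh : KTy (3 * q) (-p) (5 * (3 * c)) (-t) :=
        Or.inr ⟨by linear_combination 3 * h, ⟨q, rfl⟩, ⟨5 * c, by ring⟩, (dvd_neg).2 h2⟩
      have k := (key (3 * q) (-p) (3 * c) (-t) hh).1
      have g1 : 5 * (3 * c) = 3 * (5 * c) := by ring
      rw [g1, htri, hneg] at k
      exact k.symm
    · have : (5 : ℤ) ∣ t - u := dvd5'.2 (by push_cast; exact e)
      obtain ⟨c, hc⟩ := this
      -- `5 ∣ -2t - 3u`
      have hh : KTy (-2 * p - 3 * q) (p + q) (5 * (-2 * c - u)) (t + u) := by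
        refine Or.inl ⟨?_, ?_⟩
        · linear_combination h - 2 * (p + q) * hc
        · have e1 : 5 * (-2 * c - u) = -2 * t - 3 * u := by linear_combination 2 * hc
          rw [e1]
          exact dvd_sub (Dvd.dvd.mul_left h2 _) ⟨u, rfl⟩
      obtain ⟨-, k1, k2⟩ := key _ _ _ _ hh
      have g1 : -2 * p - 3 * q + 3 * (p + q) = p := by ring
      have g2 : 5 * (-2 * c - u) + 3 * (t + u) = t := by linear_combination 2 * hc
      have g3 : -2 * p - 3 * q + 2 * (p + q) = -q := by ring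
      have g4 : 5 * (-2 * c - u) + 2 * (t + u) = -u := by linear_combination 2 * hc
      rw [g1, g2] at k1
      rw [g3, g4, hneg'] at k2
      rw [k1, k2]
    · have : (5 : ℤ) ∣ t + u := dvd5'.2 (by push_cast; exact e)
      obtain ⟨c, hc⟩ := this
      have hh : KTy (3 * q + 3 * p) (-p) (5 * (3 * c)) (-t) := by
        refine Or.inr ⟨?_, ⟨q + p, by ring⟩, ⟨5 * c, by ring⟩, (dvd_neg).2 h2⟩
        linear_combination 3 * h - 3 * p * hc
      have k2 := (key _ _ _ _ hh).2.1
      have g3 : 3 * q + 3 * p + 3 * -p = 3 * q := by ring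
      have g4 : 5 * (3 * c) + 3 * -t = 3 * u := by linear_combination -3 * hc
      rw [g3, g4, htri, hneg] at k2
      exact k2.symm
    · have : (5 : ℤ) ∣ t - 2 * u := dvd5'.2 (by push_cast; exact e)
      obtain ⟨c, hc⟩ := this
      have hh : KTy (-6 * q + 3 * p) (3 * q - p) (5 * (3 * c)) (3 * u - t) := by
        refine Or.inr ⟨?_, ⟨-2 * q + p, by ring⟩, ⟨5 * c, by ring⟩, dvd_sub ⟨u, rfl⟩ h2⟩
        linear_combination 3 * h + 3 * (3 * q - p) * hc
      obtain ⟨-, k1, k2⟩ := key _ _ _ _ hh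
      have g1 : -6 * q + 3 * p + 3 * (3 * q - p) = 3 * q := by ring
      have g2 : 5 * (3 * c) + 3 * (3 * u - t) = 3 * u := by linear_combination -3 * hc
      have g3 : -6 * q + 3 * p + 2 * (3 * q - p) = p := by ring
      have g4 : 5 * (3 * c) + 2 * (3 * u - t) = t := by linear_combination -3 * hc
      rw [g1, g2, htri] at k1
      rw [g3, g4] at k2
      rw [k1, k2]
    · have : (5 : ℤ) ∣ t - 3 * u := dvd5'.2 (by push_cast; exact e)
      obtain ⟨c, hc⟩ := this
      have h2' : (3 : ℤ) ∣ 5 * c := by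
        rw [← hc]
        exact dvd_sub h2 ⟨u, rfl⟩
      have k := (key (p - 3 * q) q c u (Or.inl ⟨by linear_combination h + q * hc, h2'⟩)).2.1
      have g1 : p - 3 * q + 3 * q = p := by ring
      have g2 : 5 * c + 3 * u = t := by linear_combination -hc
      rwa [g1, g2] at k
  -- edges with `3 ∣ u`
  have hev' : ∀ p q t u : ℤ, p * u - q * t = 1 → (3 : ℤ) ∣ u → G p t = G q u := by
    intro p q t u h h2
    have n1 : p ≠ 0 ∨ t ≠ 0 := by
      by_contra hcon
      push Not at hcon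
      rw [hcon.1, hcon.2] at h
      simp at h
    have hneg : G (-p) (-t) = G p t := by
      have := hsc (-1) p t (by norm_num) n1
      rwa [neg_one_mul, neg_one_mul] at this
    have k := hev q (-p) u (-t) (by linear_combination h) h2
    rw [k, hneg]
  refine hf R _ G hG.1 fun p q t u h => ?_
  by_cases ht : (3 : ℤ) ∣ t
  · exact hev p q t u (by linear_combination h) ht
  · by_cases hu : (3 : ℤ) ∣ u
    · exact hev' p q t u (by linear_combination h) hu
    · by_cases htu : (3 : ℤ) ∣ t + u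
      · rw [hev' p (p + q) t (t + u) (by linear_combination h) htu]
        exact hev (p + q) q (t + u) u (by linear_combination h) htu
      · have htu' : (3 : ℤ) ∣ t - u := by
          have a1 : t % 3 = 1 ∨ t % 3 = 2 := by omega
          have a2 : u % 3 = 1 ∨ u % 3 = 2 := by omega
          rcases a1 with a1 | a1 <;> rcases a2 with a2 | a2 <;> omega
        rw [← hev (p - q) p (t - u) t (by linear_combination h) htu']
        exact hev (p - q) q (t - u) u (by linear_combination h) htu'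

end Pool.Agent.Helper77.TK
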